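import Pool.Agent.W262.S3.Stm

/-!
# Invariant square roots of rational numbers are rational (task S3-SQG)
-/

set_option autoImplicit false

namespace Pool.Agent.W32.S3

open Pool.Agent.W620.SC

universe u v w

theorem sqg_gen {k : Type u} {F : Type v} {Ω : Type w} [Field k] [CharZero k] [Field F] [Field Ω]
    [Algebra k F] [Algebra F Ω] [Algebra k Ω] [IsScalarTower k F Ω] [IsAlgClosed Ω]
    (U : Set (ValuationSubring F)) (G : GSection k F Ω U) (z : unramified F Ω U) (N : k)
    (hz : ∀ σ, G.toHom σ z = z) (hzN : (z : Ω) ^ 2 = algebraMap k Ω N) : IsSquare N := by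
  have hint : IsIntegral k (z : Ω) := by
    refine IsIntegral.of_pow (n := 2) (by norm_num) ?_
    rw [hzN]
    exact isIntegral_algebraMap
  obtain ⟨x', hx'⟩ : ∃ x' : algebraicClosure k Ω, (z : Ω) = (x' : Ω) := ⟨⟨_, hint⟩, rfl⟩
  have hfix : ∀ σ : algebraicClosure k Ω ≃ₐ[k] algebraicClosure k Ω, σ x' = x' := by
    intro σ
    have h1 := G.compat σ x' z hx'
    rw [hz σ, hx'] at h1
    exact Subtype.ext h1.symm
  have h1 : x' ∈ (⊥ : IntermediateField k (algebraicClosure k Ω)) := by
    have : IsAlgClosure k (algebraicClosure k Ω) := algebraicClosure.isAlgClosure k Ω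
    have : Normal k (algebraicClosure k Ω) := IsAlgClosure.normal k _
    have : IsGalois k (algebraicClosure k Ω) := ⟨⟩
    exact mem_of_fixed _ fun σ _ => hfix σ
  obtain ⟨r, hr⟩ := IntermediateField.mem_bot.1 h1
  refine ⟨r, ?_⟩
  apply (algebraMap k Ω).injective
  have h2 : ((algebraMap k (algebraicClosure k Ω) r : algebraicClosure k Ω) : Ω) =
      algebraMap k Ω r := rfl
  rw [← hzN, hx', ← hr, map_mul, h2, sq]

theorem sqg : Pool.Agent.W262.S3.SQG.{v, w} := by
  intro F Ω _ _ _ _ _ _ _ _ U G z N hz hzN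
  exact sqg_gen U G z N hz hzN

end Pool.Agent.W32.S3
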